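import Pool.Agent.Helper367_ML.Eval

set_option autoImplicit false

/-!
The class of frames and the decidability of its logic.
-/

namespace Pool.Agent.Helper367ML

open Fm

/-- The frames: a single chain, and two families of roots with five chains. -/
def fr (k n l : ℕ) : List ℕ :=
  if k = 0 then [l] else if k = 1 then [1, 1, 3, 2 * n + 4, l] else [1, 3, 3, 2 * n + 4, l]

/-- The `n`-th program halts on input `0` within the bound `s`. -/
def Halt (n s : ℕ) : Prop :=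
  Nat.Partrec.Code.evaln s (Denumerable.ofNat Nat.Partrec.Code n) 0 ≠ none

theorem Halt.mono {n s t : ℕ} (h : Halt n s) (hst : s ≤ t) : Halt n t := by
  unfold Halt at *
  obtain ⟨x, hx⟩ := Option.ne_none_iff_exists'.1 h
  have := Nat.Partrec.Code.evaln_mono (k₁ := s) (k₂ := t)
    (c := Denumerable.ofNat Nat.Partrec.Code n) (n := 0) (x := x) hst (by simpa using hx)
  intro h'
  rw [h'] at this
  simp at this

/-- The indices of the frames in the class. -/
def Ok (k n l : ℕ) : Prop :=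
  k = 0 ∨ (2 * n + 5 ≤ l ∧
    ((k = 1 ∧ l % 2 = 1 ∧ (l = 2 * n + 5 ∨ ¬ Halt n l)) ∨ (k = 2 ∧ l % 2 = 0)))

/-- The class of frames. -/
def Cl (ls : List ℕ) : Prop := ∃ k n l, Ok k n l ∧ ls = fr k n l

/-- The logic of the class. -/
def Lg : Set Fm := LogOf Cl

theorem cl_single (r : ℕ) : Cl [r] := ⟨0, 0, r, Or.inl rfl, by simp [fr]⟩

theorem reduce (N k n l : ℕ) (h : Ok k n l) :
    ∃ k' n' l', k' < 3 ∧ n' < N + 2 ∧ l' < 2 * N + 10 ∧ Ok k' n' l' ∧
      ∀ j, min (lnth (fr k' n' l') j) N = min (lnth (fr k n l) j) N := by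
  rcases h with rfl | ⟨h1, ⟨rfl, h2, h3⟩ | ⟨rfl, h2⟩⟩
  · refine ⟨0, 0, min l N, by omega, by omega, by omega, Or.inl rfl, ?_⟩
    intro j
    rcases j with _ | j <;> simp [fr, lnth]
  · by_cases hn : n < N + 2
    · by_cases hl : l < 2 * N + 10
      · exact ⟨1, n, l, by omega, hn, hl, Or.inr ⟨h1, Or.inl ⟨rfl, h2, h3⟩⟩, fun j => rfl⟩
      · refine ⟨1, n, 2 * N + 9, by omega, hn, by omega, Or.inr ⟨by omega, Or.inl ⟨rfl, by omega,
          Or.inr fun hh => ?_⟩⟩, ?_⟩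
        · rcases h3 with h3 | h3
          · omega
          · exact h3 (hh.mono (by omega))
        · intro j
          rcases j with _ | _ | _ | _ | _ | j <;> simp [fr, lnth]
          omega
    · refine ⟨1, N + 1, 2 * (N + 1) + 5, by omega, by omega, by omega, Or.inr ⟨by omega,
        Or.inl ⟨rfl, by omega, Or.inl rfl⟩⟩, ?_⟩
      intro j
      rcases j with _ | _ | _ | _ | _ | j <;> simp [fr, lnth] <;> omega
  · by_cases hn : n < N + 2
    · by_cases hl : l < 2 * N + 10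
      · exact ⟨2, n, l, by omega, hn, hl, Or.inr ⟨h1, Or.inr ⟨rfl, h2⟩⟩, fun j => rfl⟩
      · refine ⟨2, n, 2 * N + 8, by omega, hn, by omega, Or.inr ⟨by omega, Or.inr ⟨rfl, by omega⟩⟩,
          ?_⟩
        intro j
        rcases j with _ | _ | _ | _ | _ | j <;> simp [fr, lnth]
        omega
    · refine ⟨2, N + 1, 2 * N + 8, by omega, by omega, by omega, Or.inr ⟨by omega,
        Or.inr ⟨rfl, by omega⟩⟩, ?_⟩
      intro j
      rcases j with _ | _ | _ | _ | _ | j <;> simp [fr, lnth] <;> omega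

/-- The decision procedure on words. -/
def Dec (w : List ℕ) : Prop :=
  ∀ k ∈ List.range 3, ∀ n ∈ List.range (w.length + 1 + 2),
    ∀ l ∈ List.range (2 * (w.length + 1) + 10), Ok k n l → ValidB (fr k n l) w

theorem dec_iff (a : Fm) : Dec a.code ↔ a ∈ Lg := by
  constructor
  · rintro h ls ⟨k, n, l, hok, rfl⟩
    obtain ⟨k', n', l', hk, hn, hl, hok', hmin⟩ := reduce (a.code.length + 1) k n l hok
    have h1 := h k' (List.mem_range.2 hk) n' (List.mem_range.2 hn) l' (List.mem_range.2 hl) hok'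
    exact valid_congr _ _ a (a.code.length + 1) (by omega) hmin ((validB_iff _ a).1 h1)
  · intro h k _ n _ l _ hok
    exact (validB_iff _ a).2 (h _ ⟨k, n, l, hok, rfl⟩)

theorem halt_prim : PrimrecRel Halt := by
  have h1 : Primrec fun p : ℕ × ℕ =>
      Nat.Partrec.Code.evaln p.2 (Denumerable.ofNat Nat.Partrec.Code p.1) 0 :=
    Nat.Partrec.Code.primrec_evaln.comp (Primrec.pair (Primrec.pair Primrec.snd
      ((Primrec.ofNat Nat.Partrec.Code).comp Primrec.fst)) (Primrec.const 0))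
  have h2 : PrimrecPred fun p : ℕ × ℕ =>
      Nat.Partrec.Code.evaln p.2 (Denumerable.ofNat Nat.Partrec.Code p.1) 0 = none :=
    Primrec.eq.comp h1 (Primrec.const none)
  exact h2.not

theorem ok_prim : PrimrecPred fun p : ℕ × ℕ × ℕ => Ok p.1 p.2.1 p.2.2 := by
  have hk : Primrec fun p : ℕ × ℕ × ℕ => p.1 := Primrec.fst
  have hn : Primrec fun p : ℕ × ℕ × ℕ => p.2.1 := Primrec.fst.comp Primrec.snd
  have hl : Primrec fun p : ℕ × ℕ × ℕ => p.2.2 := Primrec.snd.comp Primrec.snd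
  have h2n : Primrec fun p : ℕ × ℕ × ℕ => 2 * p.2.1 + 5 :=
    Primrec.nat_add.comp (Primrec.nat_mul.comp (Primrec.const 2) hn) (Primrec.const 5)
  have hmod : Primrec fun p : ℕ × ℕ × ℕ => p.2.2 % 2 :=
    Primrec.nat_mod.comp hl (Primrec.const 2)
  have e0 : PrimrecPred fun p : ℕ × ℕ × ℕ => p.1 = 0 := Primrec.eq.comp hk (Primrec.const 0)
  have e1 : PrimrecPred fun p : ℕ × ℕ × ℕ => p.1 = 1 := Primrec.eq.comp hk (Primrec.const 1)
  have e2 : PrimrecPred fun p : ℕ × ℕ × ℕ => p.1 = 2 := Primrec.eq.comp hk (Primrec.const 2)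
  have e3 : PrimrecPred fun p : ℕ × ℕ × ℕ => 2 * p.2.1 + 5 ≤ p.2.2 := Primrec.nat_le.comp h2n hl
  have e4 : PrimrecPred fun p : ℕ × ℕ × ℕ => p.2.2 % 2 = 1 :=
    Primrec.eq.comp hmod (Primrec.const 1)
  have e5 : PrimrecPred fun p : ℕ × ℕ × ℕ => p.2.2 % 2 = 0 :=
    Primrec.eq.comp hmod (Primrec.const 0)
  have e6 : PrimrecPred fun p : ℕ × ℕ × ℕ => p.2.2 = 2 * p.2.1 + 5 := Primrec.eq.comp hl h2n
  have e7 : PrimrecPred fun p : ℕ × ℕ × ℕ => Halt p.2.1 p.2.2 :=
    halt_prim.comp hn hl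
  exact e0.or (e3.and ((e1.and (e4.and (e6.or e7.not))).or (e2.and e5)))

theorem fr_prim : Primrec fun p : ℕ × ℕ × ℕ => fr p.1 p.2.1 p.2.2 := by
  have hk : Primrec fun p : ℕ × ℕ × ℕ => p.1 := Primrec.fst
  have hn : Primrec fun p : ℕ × ℕ × ℕ => p.2.1 := Primrec.fst.comp Primrec.snd
  have hl : Primrec fun p : ℕ × ℕ × ℕ => p.2.2 := Primrec.snd.comp Primrec.snd
  have h2n : Primrec fun p : ℕ × ℕ × ℕ => 2 * p.2.1 + 4 :=
    Primrec.nat_add.comp (Primrec.nat_mul.comp (Primrec.const 2) hn) (Primrec.const 4)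
  have e0 : PrimrecPred fun p : ℕ × ℕ × ℕ => p.1 = 0 := Primrec.eq.comp hk (Primrec.const 0)
  have e1 : PrimrecPred fun p : ℕ × ℕ × ℕ => p.1 = 1 := Primrec.eq.comp hk (Primrec.const 1)
  have hlist : Primrec fun p : ℕ × ℕ × ℕ => [2 * p.2.1 + 4, p.2.2] :=
    Primrec.list_cons.comp h2n (Primrec.list_cons.comp hl (Primrec.const []))
  have c : ∀ (i : ℕ) (g : ℕ × ℕ × ℕ → List ℕ), Primrec g → Primrec fun p => i :: g p :=
    fun i g hg => Primrec.list_cons.comp (Primrec.const i) hg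
  exact Primrec.ite e0 (Primrec.list_cons.comp hl (Primrec.const []))
    (Primrec.ite e1 (c 1 _ (c 1 _ (c 3 _ hlist))) (c 1 _ (c 3 _ (c 3 _ hlist))))

theorem dec_prim : PrimrecPred Dec := by
  have hlen : Primrec fun w : List ℕ => w.length + 1 := Primrec.succ.comp Primrec.list_length
  have hb : Primrec fun w : List ℕ => List.range (w.length + 1 + 2) :=
    Primrec.list_range.comp (Primrec.nat_add.comp hlen (Primrec.const 2))
  have hb' : Primrec fun w : List ℕ => List.range (2 * (w.length + 1) + 10) :=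
    Primrec.list_range.comp (Primrec.nat_add.comp
      (Primrec.nat_mul.comp (Primrec.const 2) hlen) (Primrec.const 10))
  have h3 : PrimrecPred fun q : ((List ℕ × ℕ) × ℕ) × ℕ =>
      Ok q.1.1.2 q.1.2 q.2 → ValidB (fr q.1.1.2 q.1.2 q.2) q.1.1.1 := by
    have hidx : Primrec fun q : ((List ℕ × ℕ) × ℕ) × ℕ => (q.1.1.2, q.1.2, q.2) :=
      Primrec.pair (Primrec.snd.comp (Primrec.fst.comp Primrec.fst))
        (Primrec.pair (Primrec.snd.comp Primrec.fst) Primrec.snd)
    exact PR.imp (ok_prim.comp hidx) (validB_prim.comp (fr_prim.comp hidx)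
      (Primrec.fst.comp (Primrec.fst.comp Primrec.fst)))
  have h2 : PrimrecPred fun q : (List ℕ × ℕ) × ℕ =>
      ∀ l ∈ List.range (2 * (q.1.1.length + 1) + 10),
        Ok q.1.2 q.2 l → ValidB (fr q.1.2 q.2 l) q.1.1 :=
    PR.forallMem (R := fun (q : (List ℕ × ℕ) × ℕ) (l : ℕ) =>
      Ok q.1.2 q.2 l → ValidB (fr q.1.2 q.2 l) q.1.1)
      (hb'.comp (Primrec.fst.comp Primrec.fst)) h3
  have h1 : PrimrecPred fun q : List ℕ × ℕ => ∀ n ∈ List.range (q.1.length + 1 + 2),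
      ∀ l ∈ List.range (2 * (q.1.length + 1) + 10),
        Ok q.2 n l → ValidB (fr q.2 n l) q.1 :=
    PR.forallMem (R := fun (q : List ℕ × ℕ) (n : ℕ) =>
      ∀ l ∈ List.range (2 * (q.1.length + 1) + 10), Ok q.2 n l → ValidB (fr q.2 n l) q.1)
      (hb.comp Primrec.fst) h2
  exact PR.forallMem (f := fun _ : List ℕ => List.range 3) (R := fun (w : List ℕ) (k : ℕ) =>
    ∀ n ∈ List.range (w.length + 1 + 2), ∀ l ∈ List.range (2 * (w.length + 1) + 10),
      Ok k n l → ValidB (fr k n l) w) (Primrec.const _) h1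

theorem decidable_Lg : DecidableLogic Lg := by
  obtain ⟨_, h⟩ := dec_prim
  exact ⟨fun w => decide (Dec w), h.to_comp, fun a => by simpa using dec_iff a⟩

end Pool.Agent.Helper367ML
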