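import Mathlib

set_option autoImplicit false

/-!
Modal formulas, normal modal logics, decidability and the interpolant existence problem.
-/

namespace Pool.Agent.Helper367ML

/-- Modal formulas over the propositional variables `var 0, var 1, …`; the primitive
connectives are falsum, implication and the box, the others are abbreviations. -/
inductive Fm : Type
  | var : ℕ → Fm
  | bot : Fm
  | imp : Fm → Fm → Fm
  | box : Fm → Fm
  deriving DecidableEq

namespace Fm

/-- Negation. -/
def neg (a : Fm) : Fm := imp a bot

/-- Conjunction. -/
def and (a b : Fm) : Fm := neg (imp a (neg b))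

/-- Disjunction. -/
def or (a b : Fm) : Fm := imp (neg a) b

/-- Diamond. -/
def dia (a : Fm) : Fm := neg (box (neg a))

/-- Uniform substitution. -/
def subst (s : ℕ → Fm) : Fm → Fm
  | var n => s n
  | bot => bot
  | imp a b => imp (a.subst s) (b.subst s)
  | box a => box (a.subst s)

/-- The set of variables that occur in a formula. -/
def vars : Fm → Set ℕ
  | var n => {n}
  | bot => ∅
  | imp a b => a.vars ∪ b.vars
  | box a => a.vars

/-- A formula as a finite word of natural numbers, in reverse Polish form: falsum is the
letter `0`, implication the letter `1`, the box the letter `2`, the variable `n` the letter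
`n + 3`. -/
def code : Fm → List ℕ
  | var n => [n + 3]
  | bot => [0]
  | imp a b => a.code ++ b.code ++ [1]
  | box a => a.code ++ [2]

end Fm

/-- Classical tautologies (in the modal language, boxed formulas count as atoms): formulas
true under every assignment of truth values to all formulas that respects falsum and
implication. -/
def Taut (a : Fm) : Prop :=
  ∀ v : Fm → Prop, ¬ v Fm.bot → (∀ b c, v (Fm.imp b c) ↔ (v b → v c)) → v a

/-- Normal modal logics. -/
structure NormalLogic (L : Set Fm) : Prop where
  taut : ∀ a, Taut a → a ∈ L
  distr : ∀ a b, Fm.imp (Fm.box (Fm.imp a b)) (Fm.imp (Fm.box a) (Fm.box b)) ∈ L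
  mp : ∀ a b, Fm.imp a b ∈ L → a ∈ L → b ∈ L
  nec : ∀ a, a ∈ L → Fm.box a ∈ L
  subst : ∀ (s : ℕ → Fm) (a : Fm), a ∈ L → a.subst s ∈ L

/-- The Löb axiom scheme belongs to `L`. -/
def HasLob (L : Set Fm) : Prop :=
  ∀ a, Fm.imp (Fm.box (Fm.imp (Fm.box a) a)) (Fm.box a) ∈ L

/-- The provability logic `GL`: the least normal modal logic with the Löb axiom scheme. -/
def LogicGL : Set Fm := {a | ∀ L : Set Fm, NormalLogic L → HasLob L → a ∈ L}

/-- Membership in `L` is decidable: some computable function on words gives the answer for
the code of every formula. -/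
def DecidableLogic (L : Set Fm) : Prop :=
  ∃ f : List ℕ → Bool, Computable f ∧ ∀ a : Fm, f a.code = true ↔ a ∈ L

/-- `c` is an `L`-interpolant for `a → b`. -/
def IsInterpolant (L : Set Fm) (a b c : Fm) : Prop :=
  c.vars ⊆ a.vars ∩ b.vars ∧ Fm.imp a c ∈ L ∧ Fm.imp c b ∈ L

/-- The interpolant existence problem for `L` is decidable. -/
def DecidableIEP (L : Set Fm) : Prop :=
  ∃ f : List ℕ × List ℕ → Bool, Computable f ∧
    ∀ a b : Fm, f (a.code, b.code) = true ↔ ∃ c, IsInterpolant L a b c

/-- Decoding of words in reverse Polish form, with a stack of formulas. -/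
def unstep (st : List Fm) (n : ℕ) : List Fm :=
  if n = 0 then Fm.bot :: st
  else if n = 1 then
    Fm.imp (st.getD 1 Fm.bot) (st.getD 0 Fm.bot) :: st.drop 2
  else if n = 2 then Fm.box (st.getD 0 Fm.bot) :: st.drop 1
  else Fm.var (n - 3) :: st

theorem foldl_unstep (a : Fm) (st : List Fm) : a.code.foldl unstep st = a :: st := by
  induction a generalizing st with
  | var n => simp [Fm.code, unstep]
  | bot => simp [Fm.code, unstep]
  | imp a b iha ihb =>
    simp only [Fm.code, List.foldl_append, iha, ihb, List.foldl_cons, List.foldl_nil]
    simp [unstep]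
  | box a ih =>
    simp only [Fm.code, List.foldl_append, ih, List.foldl_cons, List.foldl_nil]
    simp [unstep]

/-- The coding of formulas by words is injective. -/
theorem code_injective : Function.Injective Fm.code := by
  intro a b h
  have ha := foldl_unstep a []
  rw [h, foldl_unstep b []] at ha
  exact (List.cons.inj ha).1.symm

end Pool.Agent.Helper367ML
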