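import Mathlib

set_option autoImplicit false

/-!
Primitive recursive combinators on lists.
-/

namespace Pool.Agent.Helper367ML

namespace PR

variable {α β γ σ : Type} [Primcodable α] [Primcodable β] [Primcodable γ] [Primcodable σ]

theorem forallMem {f : α → List β} {R : α → β → Prop} (hf : Primrec f) (hR : PrimrecRel R) :
    PrimrecPred fun a => ∀ b ∈ f a, R a b :=
  (PrimrecRel.forall_mem_list (R := fun b a => R a b) hR.swap).comp hf Primrec.id

theorem existsMem {f : α → List β} {R : α → β → Prop} (hf : Primrec f) (hR : PrimrecRel R) :
    PrimrecPred fun a => ∃ b ∈ f a, R a b :=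
  (PrimrecRel.exists_mem_list (R := fun b a => R a b) hR.swap).comp hf Primrec.id

theorem memList {f : α → β} {g : α → List β} (hf : Primrec f) (hg : Primrec g) :
    PrimrecPred fun a => f a ∈ g a := by
  have h : PrimrecPred fun a => ∃ b ∈ g a, f a = b :=
    existsMem (R := fun a b => f a = b) hg
      (Primrec.eq.comp₂ (hf.comp₂ Primrec₂.left) Primrec₂.right)
  exact h.of_eq fun a => by simp

theorem imp {p q : α → Prop} (hp : PrimrecPred p) (hq : PrimrecPred q) :
    PrimrecPred fun a => p a → q a :=
  (hp.not.or hq).of_eq fun a => by tauto

theorem filterList {f : α → List β} {R : α → β → Prop} [∀ a, DecidablePred (R a)]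
    (hf : Primrec f) (hR : PrimrecRel R) : Primrec fun a => (f a).filter (fun b => R a b) := by
  classical
  have h := (PrimrecRel.listFilter (R := fun b a => R a b) hR.swap).comp hf Primrec.id
  exact h.of_eq fun a => by
    apply List.filter_congr
    intro x _
    simp

theorem sublists : Primrec (List.sublists' : List β → List (List β)) := by
  have h : Primrec fun l : List β =>
      l.foldr (fun a acc => acc ++ acc.map (List.cons a)) [[]] := by
    refine Primrec.list_foldr (f := fun l : List β => l) (g := fun _ => [[]])
      (h := fun _ (p : β × List (List β)) => p.2 ++ p.2.map (List.cons p.1))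
      Primrec.id (Primrec.const [[]]) ?_
    refine Primrec.list_append.comp (Primrec.snd.comp Primrec.snd) ?_
    refine Primrec.list_map (Primrec.snd.comp Primrec.snd) ?_
    exact Primrec.list_cons.comp₂ ((Primrec.fst.comp Primrec.snd).comp₂ Primrec₂.left)
      Primrec₂.right
  exact h.of_eq fun l => by
    induction l with
    | nil => simp
    | cons a l ih => rw [List.foldr_cons, ih, List.sublists'_cons]

end PR

end Pool.Agent.Helper367ML
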