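import Pool.Agent.Helper367_ML.Sem
import Pool.Agent.Helper367_ML.Prim

set_option autoImplicit false

/-!
Validity at the root of a frame given by a list of chain lengths is primitive recursive.
-/

namespace Pool.Agent.Helper367ML

open Fm

/-- Points: `(j, r)` is the point of rank `r` of the chain `j`; the root is `(ls.length, 0)`. -/
abbrev Pt := ℕ × ℕ

/-- The points of the frame. -/
def pts (ls : List ℕ) : List Pt :=
  ((List.range ls.length).flatMap fun j => (List.range (ls.getD j 0)).map fun r => (j, r)) ++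
    [(ls.length, 0)]

theorem mem_pts (ls : List ℕ) (x : Pt) :
    x ∈ pts ls ↔ (x.2 < lnth ls x.1) ∨ x = (ls.length, 0) := by
  obtain ⟨j, r⟩ := x
  simp only [pts, List.mem_append, List.mem_flatMap, List.mem_range, List.mem_map, Prod.mk.injEq,
    List.mem_singleton, lnth]
  refine or_congr ?_ Iff.rfl
  constructor
  · rintro ⟨a, _, b, hb, rfl, rfl⟩
    exact hb
  · intro h
    refine ⟨j, ?_, r, h, rfl, rfl⟩
    by_contra hj
    rw [List.getD_eq_default _ _ (by omega)] at h
    omega

theorem lt_length_of_lt {ls : List ℕ} {j r : ℕ} (h : r < lnth ls j) : j < ls.length := by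
  by_contra hj
  rw [lnth, List.getD_eq_default _ _ (by omega)] at h
  omega

/-- Visibility between points; `m` is the number of chains. -/
def See (m : ℕ) (x y : Pt) : Prop := (x.1 = y.1 ∧ y.2 < x.2) ∨ (x.1 = m ∧ y.1 ≠ m)

instance (m : ℕ) (x y : Pt) : Decidable (See m x y) := by
  unfold See
  infer_instance

/-- Evaluation data: points, number of chains, list of the true atoms. -/
abbrev Env := List Pt × ℕ × List (Pt × ℕ)

/-- One step of the evaluation of a word in reverse Polish form. -/
def step (E : Env) (st : List (List Pt)) (a : ℕ) : List (List Pt) :=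
  if a = 0 then [] :: st
  else if a = 1 then
    (E.1.filter fun x => (x ∈ st.getD 1 [] → x ∈ st.getD 0 [])) :: st.drop 2
  else if a = 2 then
    (E.1.filter fun x => (∀ y ∈ E.1, See E.2.1 x y → y ∈ st.getD 0 [])) :: st.drop 1
  else (E.1.filter fun x => (x, a - 3) ∈ E.2.2) :: st

/-- The truth set of a formula. -/
def tr (E : Env) : Fm → List Pt
  | var n => E.1.filter fun x => (x, n) ∈ E.2.2
  | bot => []
  | imp a b => E.1.filter fun x => (x ∈ tr E a → x ∈ tr E b)
  | box a => E.1.filter fun x => (∀ y ∈ E.1, See E.2.1 x y → y ∈ tr E a)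

theorem foldl_step (E : Env) (a : Fm) (st : List (List Pt)) :
    a.code.foldl (step E) st = tr E a :: st := by
  induction a generalizing st with
  | var n => simp [code, step, tr]
  | bot => simp [code, step, tr]
  | imp a b iha ihb =>
    simp only [code, List.foldl_append, iha, ihb, List.foldl_cons, List.foldl_nil]
    simp [step, tr]
  | box a ih =>
    simp only [code, List.foldl_append, ih, List.foldl_cons, List.foldl_nil]
    simp only [step, tr, OfNat.ofNat_ne_zero, OfNat.ofNat_ne_one, if_false, if_true,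
      List.drop_succ_cons, List.drop_zero]
    rfl

/-- The valuation on the chains given by a list of true atoms. -/
def mV (M : List (Pt × ℕ)) (j r n : ℕ) : Prop := ((j, r), n) ∈ M

theorem mem_tr_chain (ls : List ℕ) (M : List (Pt × ℕ)) (a : Fm) (j r : ℕ) (h : r < lnth ls j) :
    (j, r) ∈ tr (pts ls, ls.length, M) a ↔ satc (mV M j) a r := by
  have hj := lt_length_of_lt h
  have hpt : ∀ s, s < lnth ls j → (j, s) ∈ pts ls := fun s hs => (mem_pts ls _).2 (Or.inl hs)
  induction a generalizing r with
  | var n => simp [tr, satc, mV, hpt r h]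
  | bot => simp [tr, satc]
  | imp a b iha ihb =>
    simp only [tr, satc, List.mem_filter, hpt r h, true_and, decide_eq_true_eq, iha r h, ihb r h]
  | box a ih =>
    simp only [tr, satc, List.mem_filter, hpt r h, true_and, decide_eq_true_eq]
    constructor
    · intro H s hs
      exact (ih s (by omega)).1 (H (j, s) (hpt s (by omega)) (Or.inl ⟨rfl, hs⟩))
    · rintro H ⟨j', s⟩ _ hsee
      rcases hsee with ⟨h1, h2⟩ | ⟨h1, _⟩
      · dsimp only at h1 h2
        subst h1
        exact (ih s (by omega)).2 (H s h2)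
      · dsimp only at h1
        omega

theorem mem_tr_root (ls : List ℕ) (M : List (Pt × ℕ)) (a : Fm) :
    (ls.length, 0) ∈ tr (pts ls, ls.length, M) a ↔
      satr (lnth ls) (mV M) (fun n => ((ls.length, 0), n) ∈ M) a := by
  have hroot : (ls.length, 0) ∈ pts ls := (mem_pts ls _).2 (Or.inr rfl)
  induction a with
  | var n => simp [tr, satr, hroot]
  | bot => simp [tr, satr]
  | imp a b iha ihb =>
    simp only [tr, satr, List.mem_filter, hroot, true_and, decide_eq_true_eq, iha, ihb]
  | box a _ =>
    simp only [tr, satr, List.mem_filter, hroot, true_and, decide_eq_true_eq]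
    constructor
    · intro H j r hr
      have hj := lt_length_of_lt hr
      refine (mem_tr_chain ls M a j r hr).1 (H (j, r) ((mem_pts ls _).2 (Or.inl hr)) ?_)
      exact Or.inr ⟨rfl, by dsimp only; omega⟩
    · rintro H ⟨j, r⟩ hp hsee
      have hr : r < lnth ls j := by
        rcases (mem_pts ls _).1 hp with h | h
        · exact h
        · simp only [Prod.mk.injEq] at h
          rcases hsee with ⟨_, h2⟩ | ⟨_, h2⟩
          · dsimp only at h2
            omega
          · exact absurd h.1 h2
      exact (mem_tr_chain ls M a j r hr).2 (H j r hr)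

theorem satc_congr (V V' : ℕ → ℕ → Prop) (a : Fm) (r : ℕ)
    (h : ∀ n ∈ a.vars, ∀ s, s ≤ r → (V s n ↔ V' s n)) : satc V a r ↔ satc V' a r := by
  induction a generalizing r with
  | var n => simpa [satc] using h n (by simp [vars]) r le_rfl
  | bot => simp [satc]
  | imp a b iha ihb =>
    simp only [satc]
    rw [iha r fun n hn => h n (Or.inl hn), ihb r fun n hn => h n (Or.inr hn)]
  | box a ih =>
    simp only [satc]
    exact forall_congr' fun s => imp_congr_right fun hs =>
      ih s fun n hn t ht => h n hn t (by omega)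

theorem satr_congr (len : ℕ → ℕ) (V V' : ℕ → ℕ → ℕ → Prop) (V0 V0' : ℕ → Prop) (a : Fm)
    (h0 : ∀ n ∈ a.vars, (V0 n ↔ V0' n))
    (h : ∀ n ∈ a.vars, ∀ j r, r < len j → (V j r n ↔ V' j r n)) :
    satr len V V0 a ↔ satr len V' V0' a := by
  induction a with
  | var n => simpa [satr] using h0 n (by simp [vars])
  | bot => simp [satr]
  | imp a b iha ihb =>
    simp only [satr]
    rw [iha (fun n hn => h0 n (Or.inl hn)) (fun n hn => h n (Or.inl hn)),
      ihb (fun n hn => h0 n (Or.inr hn)) (fun n hn => h n (Or.inr hn))]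
  | box a _ =>
    simp only [satr]
    exact forall_congr' fun j => forall_congr' fun r => imp_congr_right fun hr =>
      satc_congr _ _ a r fun n hn t ht => h n hn j t (by omega)

theorem mem_code_of_vars (a : Fm) (n : ℕ) (h : n ∈ a.vars) : n + 3 ∈ a.code := by
  induction a with
  | var m =>
    simp only [vars, Set.mem_singleton_iff] at h
    simp [code, h]
  | bot => simp [vars] at h
  | imp a b iha ihb =>
    rcases h with h | h
    · simp [code, iha h]
    · simp [code, ihb h]
  | box a ih => simp [code, ih h]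

/-- The candidate atoms. -/
def atoms (ls w : List ℕ) : List (Pt × ℕ) := (pts ls).flatMap fun x => w.map fun a => (x, a - 3)

theorem mem_atoms (ls w : List ℕ) (x : Pt) (n : ℕ) (hx : x ∈ pts ls) (hn : n + 3 ∈ w) :
    (x, n) ∈ atoms ls w := by
  simp only [atoms, List.mem_flatMap, List.mem_map]
  exact ⟨x, hx, n + 3, hn, by simp⟩

/-- The brute force test of validity. -/
def ValidB (ls w : List ℕ) : Prop :=
  ∀ M ∈ (atoms ls w).sublists',
    (ls.length, 0) ∈ (w.foldl (step (pts ls, ls.length, M)) []).getD 0 []

theorem validB_iff (ls : List ℕ) (a : Fm) : ValidB ls a.code ↔ ValidL ls a := by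
  classical
  constructor
  · intro h V V0
    set M : List (Pt × ℕ) := (atoms ls a.code).filter fun p =>
      if p.1.1 < ls.length then V p.1.1 p.1.2 p.2 else V0 p.2 with hM
    have h1 := h M (by
      rw [List.mem_sublists', hM]
      exact List.filter_sublist)
    rw [foldl_step] at h1
    have h2 := (mem_tr_root ls M a).1 (by simpa using h1)
    refine (satr_congr _ _ _ _ _ a ?_ ?_).1 h2
    · intro n hn
      have := mem_atoms ls a.code (ls.length, 0) n ((mem_pts ls _).2 (Or.inr rfl))
        (mem_code_of_vars a n hn)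
      simp [hM, List.mem_filter, this]
    · intro n hn j r hr
      have := mem_atoms ls a.code (j, r) n ((mem_pts ls _).2 (Or.inl hr))
        (mem_code_of_vars a n hn)
      have hj := lt_length_of_lt hr
      simp [mV, hM, List.mem_filter, this, hj]
  · intro h M _
    rw [foldl_step]
    simpa using (mem_tr_root ls M a).2 (h _ _)

/-! ### Primitive recursiveness -/

theorem see_prim : PrimrecPred fun p : ℕ × Pt × Pt => See p.1 p.2.1 p.2.2 := by
  have hx : Primrec fun p : ℕ × Pt × Pt => p.2.1 := Primrec.fst.comp Primrec.snd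
  have hy : Primrec fun p : ℕ × Pt × Pt => p.2.2 := Primrec.snd.comp Primrec.snd
  have h1 : PrimrecPred fun p : ℕ × Pt × Pt => p.2.1.1 = p.2.2.1 :=
    Primrec.eq.comp (Primrec.fst.comp hx) (Primrec.fst.comp hy)
  have h2 : PrimrecPred fun p : ℕ × Pt × Pt => p.2.2.2 < p.2.1.2 :=
    Primrec.nat_lt.comp (Primrec.snd.comp hy) (Primrec.snd.comp hx)
  have h3 : PrimrecPred fun p : ℕ × Pt × Pt => p.2.1.1 = p.1 :=
    Primrec.eq.comp (Primrec.fst.comp hx) Primrec.fst
  have h4 : PrimrecPred fun p : ℕ × Pt × Pt => p.2.2.1 = p.1 :=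
    Primrec.eq.comp (Primrec.fst.comp hy) Primrec.fst
  exact (h1.and h2).or (h3.and h4.not)

theorem step_prim : Primrec fun p : Env × List (List Pt) × ℕ => step p.1 p.2.1 p.2.2 := by
  have hE : Primrec fun p : Env × List (List Pt) × ℕ => p.1 := Primrec.fst
  have hst : Primrec fun p : Env × List (List Pt) × ℕ => p.2.1 := Primrec.fst.comp Primrec.snd
  have ha : Primrec fun p : Env × List (List Pt) × ℕ => p.2.2 := Primrec.snd.comp Primrec.snd
  have hE1 : Primrec fun p : Env × List (List Pt) × ℕ => p.1.1 := Primrec.fst.comp hE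
  have hg : ∀ i : ℕ, Primrec fun p : Env × List (List Pt) × ℕ => p.2.1.getD i [] := fun i =>
    (Primrec.list_getD []).comp hst (Primrec.const i)
  have hd : ∀ i : ℕ, Primrec fun p : Env × List (List Pt) × ℕ => p.2.1.drop i := fun i =>
    Primrec.list_drop.comp (Primrec.const i) hst
  have c1 : Primrec fun p : Env × List (List Pt) × ℕ =>
      p.1.1.filter fun x => (x ∈ p.2.1.getD 1 [] → x ∈ p.2.1.getD 0 []) := by
    refine PR.filterList (R := fun (p : Env × List (List Pt) × ℕ) (x : Pt) =>
      x ∈ p.2.1.getD 1 [] → x ∈ p.2.1.getD 0 []) hE1 ?_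
    have : PrimrecPred fun q : (Env × List (List Pt) × ℕ) × Pt =>
        q.2 ∈ q.1.2.1.getD 1 [] → q.2 ∈ q.1.2.1.getD 0 [] :=
      PR.imp (PR.memList Primrec.snd ((hg 1).comp Primrec.fst))
        (PR.memList Primrec.snd ((hg 0).comp Primrec.fst))
    exact this
  have c2 : Primrec fun p : Env × List (List Pt) × ℕ =>
      p.1.1.filter fun x => (∀ y ∈ p.1.1, See p.1.2.1 x y → y ∈ p.2.1.getD 0 []) := by
    refine PR.filterList (R := fun (p : Env × List (List Pt) × ℕ) (x : Pt) =>
      ∀ y ∈ p.1.1, See p.1.2.1 x y → y ∈ p.2.1.getD 0 []) hE1 ?_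
    have h1 : PrimrecPred fun q : ((Env × List (List Pt) × ℕ) × Pt) × Pt =>
        See q.1.1.1.2.1 q.1.2 q.2 → q.2 ∈ q.1.1.2.1.getD 0 [] := by
      refine PR.imp ?_ (PR.memList Primrec.snd ((hg 0).comp (Primrec.fst.comp Primrec.fst)))
      exact see_prim.comp (Primrec.pair
        ((Primrec.fst.comp (Primrec.snd.comp hE)).comp (Primrec.fst.comp Primrec.fst))
        (Primrec.pair (Primrec.snd.comp Primrec.fst) Primrec.snd))
    have : PrimrecPred fun q : (Env × List (List Pt) × ℕ) × Pt =>
        ∀ y ∈ q.1.1.1, See q.1.1.2.1 q.2 y → y ∈ q.1.2.1.getD 0 [] :=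
      PR.forallMem (R := fun (q : (Env × List (List Pt) × ℕ) × Pt) (y : Pt) =>
        See q.1.1.2.1 q.2 y → y ∈ q.1.2.1.getD 0 []) (hE1.comp Primrec.fst) h1
    exact this
  have c3 : Primrec fun p : Env × List (List Pt) × ℕ =>
      p.1.1.filter fun x => (x, p.2.2 - 3) ∈ p.1.2.2 := by
    refine PR.filterList (R := fun (p : Env × List (List Pt) × ℕ) (x : Pt) =>
      (x, p.2.2 - 3) ∈ p.1.2.2) hE1 ?_
    have : PrimrecPred fun q : (Env × List (List Pt) × ℕ) × Pt =>
        (q.2, q.1.2.2 - 3) ∈ q.1.1.2.2 :=
      PR.memList (Primrec.pair Primrec.snd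
        (Primrec.nat_sub.comp (ha.comp Primrec.fst) (Primrec.const 3)))
        ((Primrec.snd.comp (Primrec.snd.comp hE)).comp Primrec.fst)
    exact this
  have e : ∀ i : ℕ, PrimrecPred fun p : Env × List (List Pt) × ℕ => p.2.2 = i := fun i =>
    Primrec.eq.comp ha (Primrec.const i)
  exact Primrec.ite (e 0) (Primrec.list_cons.comp (Primrec.const []) hst)
    (Primrec.ite (e 1) (Primrec.list_cons.comp c1 (hd 2))
      (Primrec.ite (e 2) (Primrec.list_cons.comp c2 (hd 1))
        (Primrec.list_cons.comp c3 hst)))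

theorem pts_prim : Primrec pts := by
  have h1 : Primrec fun ls : List ℕ => (List.range ls.length).flatMap fun j =>
      (List.range (ls.getD j 0)).map fun r => (j, r) := by
    refine Primrec.list_flatMap (Primrec.list_range.comp Primrec.list_length) ?_
    have : Primrec fun p : List ℕ × ℕ => (List.range (p.1.getD p.2 0)).map fun r => (p.2, r) := by
      refine Primrec.list_map (Primrec.list_range.comp (Primrec.list_getD 0)) ?_
      exact Primrec.pair (Primrec.snd.comp Primrec.fst) Primrec.snd
    exact this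
  exact Primrec.list_append.comp h1 (Primrec.list_cons.comp
    (Primrec.pair Primrec.list_length (Primrec.const 0)) (Primrec.const []))

theorem atoms_prim : Primrec₂ atoms := by
  have : Primrec fun p : List ℕ × List ℕ => (pts p.1).flatMap fun x => p.2.map fun a =>
      (x, a - 3) := by
    refine Primrec.list_flatMap (pts_prim.comp Primrec.fst) ?_
    have : Primrec fun q : (List ℕ × List ℕ) × Pt => q.1.2.map fun a => (q.2, a - 3) := by
      refine Primrec.list_map (Primrec.snd.comp Primrec.fst) ?_
      exact Primrec.pair (Primrec.snd.comp Primrec.fst)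
        (Primrec.nat_sub.comp Primrec.snd (Primrec.const 3))
    exact this
  exact this

theorem validB_prim : PrimrecRel ValidB := by
  have hls : Primrec fun q : (List ℕ × List ℕ) × List (Pt × ℕ) => q.1.1 :=
    Primrec.fst.comp Primrec.fst
  have hEnv : Primrec fun q : (List ℕ × List ℕ) × List (Pt × ℕ) =>
      (pts q.1.1, q.1.1.length, q.2) :=
    Primrec.pair (pts_prim.comp hls) (Primrec.pair (Primrec.list_length.comp hls) Primrec.snd)
  have hfold : Primrec fun q : (List ℕ × List ℕ) × List (Pt × ℕ) =>
      q.1.2.foldl (step (pts q.1.1, q.1.1.length, q.2)) [] := by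
    refine Primrec.list_foldl (h := fun (q : (List ℕ × List ℕ) × List (Pt × ℕ))
      (s : List (List Pt) × ℕ) => step (pts q.1.1, q.1.1.length, q.2) s.1 s.2)
      (Primrec.snd.comp Primrec.fst) (Primrec.const []) ?_
    exact step_prim.comp (Primrec.pair (hEnv.comp Primrec.fst) Primrec.snd)
  have h1 : PrimrecPred fun q : (List ℕ × List ℕ) × List (Pt × ℕ) =>
      (q.1.1.length, 0) ∈ (q.1.2.foldl (step (pts q.1.1, q.1.1.length, q.2)) []).getD 0 [] :=
    PR.memList (Primrec.pair (Primrec.list_length.comp hls) (Primrec.const 0))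
      ((Primrec.list_getD []).comp hfold (Primrec.const 0))
  have h2 : PrimrecPred fun p : List ℕ × List ℕ => ValidB p.1 p.2 :=
    PR.forallMem (f := fun p : List ℕ × List ℕ => (atoms p.1 p.2).sublists')
      (R := fun (p : List ℕ × List ℕ) (M : List (Pt × ℕ)) => (p.1.length, 0) ∈
        (p.2.foldl (step (pts p.1, p.1.length, M)) []).getD 0 [])
      (PR.sublists.comp atoms_prim) h1
  exact h2

end Pool.Agent.Helper367ML
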