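import Pool.Agent.Helper367_ML.Defs

set_option autoImplicit false

/-!
Semantics: roots with finitely many chains hanging below; the logic of such a class.
-/

namespace Pool.Agent.Helper367ML

open Fm

/-- Truth at the points of a chain; the point `r` sees the points `s < r`. -/
def satc (V : ℕ → ℕ → Prop) : Fm → ℕ → Prop
  | var n, r => V r n
  | bot, _ => False
  | imp a b, r => satc V a r → satc V b r
  | box a, r => ∀ s, s < r → satc V a s

/-- Truth at a root which sees, for each `j`, a chain of length `len j`. -/
def satr (len : ℕ → ℕ) (V : ℕ → ℕ → ℕ → Prop) (V0 : ℕ → Prop) : Fm → Prop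
  | var n => V0 n
  | bot => False
  | imp a b => satr len V V0 a → satr len V V0 b
  | box a => ∀ j r, r < len j → satc (V j) a r

/-- Length function of a list. -/
def lnth (ls : List ℕ) (j : ℕ) : ℕ := ls.getD j 0

/-- Validity at the root of a frame given by a list of chain lengths. -/
def ValidL (ls : List ℕ) (a : Fm) : Prop := ∀ V V0, satr (lnth ls) V V0 a

/-- The logic of a class of such frames. -/
def LogOf (C : List ℕ → Prop) : Set Fm := {a | ∀ ls, C ls → ValidL ls a}

theorem satr_single (V : ℕ → ℕ → Prop) (r : ℕ) (a : Fm) :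
    satr (lnth [r]) (fun _ => V) (V r) a ↔ satc V a r := by
  induction a with
  | var n => simp [satr, satc]
  | bot => simp [satr, satc]
  | imp a b iha ihb => simp only [satr, satc, iha, ihb]
  | box a _ =>
    simp only [satr, satc]
    constructor
    · intro h s hs
      exact h 0 s (by simpa [lnth] using hs)
    · intro h j s hs
      apply h
      cases j with
      | zero => simpa [lnth] using hs
      | succ j => simp [lnth] at hs

theorem satc_subst (s : ℕ → Fm) (V : ℕ → ℕ → Prop) (a : Fm) (r : ℕ) :
    satc V (a.subst s) r ↔ satc (fun r n => satc V (s n) r) a r := by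
  induction a generalizing r with
  | var n => simp [subst, satc]
  | bot => simp [subst, satc]
  | imp a b iha ihb => simp only [subst, satc, iha, ihb]
  | box a ih => simp only [subst, satc, ih]

theorem satr_subst (s : ℕ → Fm) (len : ℕ → ℕ) (V : ℕ → ℕ → ℕ → Prop) (V0 : ℕ → Prop) (a : Fm) :
    satr len V V0 (a.subst s) ↔
      satr len (fun j r n => satc (V j) (s n) r) (fun n => satr len V V0 (s n)) a := by
  induction a with
  | var n => simp [subst, satr]
  | bot => simp [subst, satr]
  | imp a b iha ihb => simp only [subst, satr, iha, ihb]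
  | box a ih => simp only [subst, satr, satc_subst]

theorem normal_logOf (C : List ℕ → Prop) (hC : ∀ r, C [r]) : NormalLogic (LogOf C) where
  taut a ha ls _ V V0 := ha (satr (lnth ls) V V0) (by simp [satr]) (by intro b c; simp [satr])
  distr a b ls _ V V0 := by
    simp only [satr, satc]
    intro h1 h2 j r hr
    exact h1 j r hr (h2 j r hr)
  mp a b h1 h2 ls hls V V0 := h1 ls hls V V0 (h2 ls hls V V0)
  nec a h ls _ V V0 := by
    simp only [satr]
    intro j r _
    exact (satr_single (V j) r a).1 (h [r] (hC r) _ _)
  subst s a h ls hls V V0 := (satr_subst s _ V V0 a).2 (h ls hls _ _)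

theorem lob_logOf (C : List ℕ → Prop) : HasLob (LogOf C) := by
  intro a ls _ V V0
  simp only [satr, satc]
  intro h j r
  induction r using Nat.strong_induction_on with
  | _ r ih =>
    intro hr
    exact h j r hr fun s hs => ih s hs (lt_trans hs hr)

/-! ### Changing the lengths of long chains -/

/-- The boxed arguments in a formula. -/
def bx : Fm → Finset Fm
  | var _ => ∅
  | bot => ∅
  | imp a b => bx a ∪ bx b
  | box a => insert a (bx a)

theorem bx_card (a : Fm) : (bx a).card ≤ a.code.length := by
  induction a with
  | var n => simp [bx, code]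
  | bot => simp [bx, code]
  | imp a b iha ihb =>
    have := Finset.card_union_le (bx a) (bx b)
    simp only [bx, code, List.length_append, List.length_singleton]
    omega
  | box a ih =>
    have := Finset.card_insert_le a (bx a)
    simp only [bx, code, List.length_append, List.length_singleton]
    omega

/-- Two chains that agree on the boxes in `S` at a point that sees the first `l`
(respectively `l'`) points. -/
def Same (S : Finset Fm) (V : ℕ → ℕ → Prop) (l : ℕ) (V' : ℕ → ℕ → Prop) (l' : ℕ) : Prop :=
  ∀ a ∈ S, (∀ r, r < l → satc V a r) ↔ (∀ r, r < l' → satc V' a r)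

theorem Same.refl (S : Finset Fm) (V : ℕ → ℕ → Prop) (l : ℕ) : Same S V l V l :=
  fun _ _ => Iff.rfl

theorem Same.trans {S : Finset Fm} {V V' V'' : ℕ → ℕ → Prop} {l l' l'' : ℕ}
    (h : Same S V l V' l') (h' : Same S V' l' V'' l'') : Same S V l V'' l'' :=
  fun a ha => (h a ha).trans (h' a ha)

/-- A point that satisfies all the boxed arguments satisfied below it. -/
theorem exists_repeat (S : Finset Fm) (V : ℕ → ℕ → Prop) (l : ℕ) (hl : S.card < l) :
    ∃ r0, r0 < l ∧ ∀ a ∈ S, (∀ s, s < r0 → satc V a s) → satc V a r0 := by
  classical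
  by_contra hcon
  push Not at hcon
  set B : ℕ → Finset Fm := fun r => S.filter fun a => ∀ s, s < r → satc V a s with hB
  have hcard : ∀ r, r ≤ l → (B r).card + r ≤ S.card := by
    intro r
    induction r with
    | zero =>
      intro _
      simpa using Finset.card_filter_le S _
    | succ r ih =>
      intro hr
      have h1 := ih (by omega)
      have h2 : B (r + 1) ⊂ B r := by
        rw [Finset.ssubset_iff_of_subset]
        · obtain ⟨a, haS, ha, hna⟩ := hcon r (by omega)
          refine ⟨a, ?_, ?_⟩
          · simp only [hB, Finset.mem_filter]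
            exact ⟨haS, ha⟩
          · simp only [hB, Finset.mem_filter, not_and]
            intro _ h
            exact hna (h r (by omega))
        · intro a ha
          simp only [hB, Finset.mem_filter] at ha ⊢
          exact ⟨ha.1, fun s hs => ha.2 s (by omega)⟩
      have h3 := Finset.card_lt_card h2
      omega
  have := hcard l le_rfl
  omega

theorem transfer (S : Finset Fm) (V : ℕ → ℕ → Prop) (r0 : ℕ) (g : ℕ → ℕ)
    (hg : ∀ P : ℕ → Prop, ((∀ s, s < r0 → P s) → P r0) →
      ∀ r, (∀ s, s < r → P (g s)) ↔ (∀ s, s < g r → P s))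
    (h0 : ∀ a ∈ S, (∀ s, s < r0 → satc V a s) → satc V a r0) (a : Fm) (ha : bx a ⊆ S) (r : ℕ) :
    satc (fun r => V (g r)) a r ↔ satc V a (g r) := by
  induction a generalizing r with
  | var n => simp [satc]
  | bot => simp [satc]
  | imp a b iha ihb =>
    simp only [bx, Finset.union_subset_iff] at ha
    simp only [satc, iha ha.1, ihb ha.2]
  | box a ih =>
    simp only [bx, Finset.insert_subset_iff] at ha
    simp only [satc, ih ha.2]
    exact hg (satc V a) (h0 a ha.1) r

theorem same_of_g (S : Finset Fm) (hS : ∀ a ∈ S, bx a ⊆ S) (V : ℕ → ℕ → Prop) (r0 : ℕ)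
    (g : ℕ → ℕ)
    (hg : ∀ P : ℕ → Prop, ((∀ s, s < r0 → P s) → P r0) →
      ∀ r, (∀ s, s < r → P (g s)) ↔ (∀ s, s < g r → P s))
    (h0 : ∀ a ∈ S, (∀ s, s < r0 → satc V a s) → satc V a r0) (l : ℕ) :
    Same S V (g l) (fun r => V (g r)) l := by
  intro a ha
  have h1 : (∀ r, r < l → satc (fun r => V (g r)) a r) ↔ ∀ r, r < l → satc V a (g r) :=
    forall_congr' fun r => imp_congr_right fun _ => transfer S V r0 g hg h0 a (hS a ha) r
  rw [h1]
  exact (hg (satc V a) (h0 a ha) l).symm

theorem same_up (S : Finset Fm) (hS : ∀ a ∈ S, bx a ⊆ S) (V : ℕ → ℕ → Prop) (l : ℕ)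
    (hl : S.card < l) : ∃ V', Same S V l V' (l + 1) := by
  obtain ⟨r0, hr0, h0⟩ := exists_repeat S V l hl
  refine ⟨fun r => V (if r ≤ r0 then r else r - 1), ?_⟩
  have h := same_of_g S hS V r0 (fun r => if r ≤ r0 then r else r - 1) ?_ h0 (l + 1)
  · rw [if_neg (by omega), Nat.add_sub_cancel] at h
    exact h
  · intro P hP r
    by_cases hr : r ≤ r0
    · rw [if_pos hr]
      constructor
      · intro h s hs
        have := h s hs
        rwa [if_pos (by omega)] at this
      · intro h s hs
        rw [if_pos (by omega)]
        exact h s hs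
    · rw [if_neg hr]
      constructor
      · intro h s hs
        by_cases hsr : s ≤ r0
        · have := h s (by omega)
          rwa [if_pos hsr] at this
        · have := h (s + 1) (by omega)
          rwa [if_neg (by omega), Nat.add_sub_cancel] at this
      · intro h s hs
        by_cases hsr : s ≤ r0
        · rw [if_pos hsr]
          by_cases hs2 : s < r - 1
          · exact h s hs2
          · have hs3 : s = r0 := by omega
            subst hs3
            exact hP fun t ht => h t (by omega)
        · rw [if_neg hsr]
          exact h (s - 1) (by omega)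

theorem same_down (S : Finset Fm) (hS : ∀ a ∈ S, bx a ⊆ S) (V : ℕ → ℕ → Prop) (l : ℕ)
    (hl : S.card < l + 1) : ∃ V', Same S V (l + 1) V' l := by
  obtain ⟨r0, hr0, h0⟩ := exists_repeat S V (l + 1) hl
  refine ⟨fun r => V (if r < r0 then r else r + 1), ?_⟩
  have h := same_of_g S hS V r0 (fun r => if r < r0 then r else r + 1) ?_ h0 l
  · rw [if_neg (by omega)] at h
    exact h
  · intro P hP r
    by_cases hr : r < r0
    · rw [if_pos hr]
      constructor
      · intro h s hs
        have := h s hs
        rwa [if_pos (by omega)] at this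
      · intro h s hs
        rw [if_pos (by omega)]
        exact h s hs
    · rw [if_neg hr]
      constructor
      · intro h s hs
        have hlow : ∀ t, t < r0 → P t := by
          intro t ht
          have := h t (by omega)
          rwa [if_pos ht] at this
        rcases lt_trichotomy s r0 with h1 | h1 | h1
        · exact hlow s h1
        · subst h1
          exact hP hlow
        · have := h (s - 1) (by omega)
          rw [if_neg (by omega)] at this
          have h3 : s - 1 + 1 = s := by omega
          rwa [h3] at this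
      · intro h s hs
        by_cases hsr : s < r0
        · rw [if_pos hsr]
          exact h s (by omega)
        · rw [if_neg hsr]
          exact h (s + 1) (by omega)

theorem same_of_le (S : Finset Fm) (hS : ∀ a ∈ S, bx a ⊆ S) (l : ℕ) (hl : S.card ≤ l) (d : ℕ) :
    (∀ V, ∃ V', Same S V (l + 1) V' (l + 1 + d)) ∧ (∀ V, ∃ V', Same S V (l + d) V' l) := by
  induction d with
  | zero => exact ⟨fun V => ⟨V, Same.refl _ _ _⟩, fun V => ⟨V, Same.refl _ _ _⟩⟩
  | succ d ih =>
    constructor
    · intro V
      obtain ⟨V1, h1⟩ := ih.1 V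
      obtain ⟨V2, h2⟩ := same_up S hS V1 (l + 1 + d) (by omega)
      exact ⟨V2, h1.trans h2⟩
    · intro V
      obtain ⟨V1, h1⟩ := same_down S hS V (l + d) (by omega)
      obtain ⟨V2, h2⟩ := ih.2 V1
      exact ⟨V2, h1.trans h2⟩

theorem same_of_min (S : Finset Fm) (hS : ∀ a ∈ S, bx a ⊆ S) (N : ℕ) (hN : S.card < N) (l l' : ℕ)
    (h : min l N = min l' N) (V : ℕ → ℕ → Prop) : ∃ V', Same S V l V' l' := by
  by_cases hl : l < N
  · have : l = l' := by omega
    subst this
    exact ⟨V, Same.refl _ _ _⟩
  · have hl' : N ≤ l' := by omega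
    obtain ⟨M, rfl⟩ : ∃ M, N = M + 1 := ⟨N - 1, by omega⟩
    obtain ⟨V1, h1⟩ := (same_of_le S hS (M + 1) (by omega) (l - (M + 1))).2 V
    obtain ⟨V2, h2⟩ := (same_of_le S hS M (by omega) (l' - (M + 1))).1 V1
    have e1 : M + 1 + (l - (M + 1)) = l := by omega
    have e2 : M + 1 + (l' - (M + 1)) = l' := by omega
    rw [e1] at h1
    rw [e2] at h2
    exact ⟨V2, h1.trans h2⟩

theorem bx_trans {a b : Fm} (h : a ∈ bx b) : bx a ⊆ bx b := by
  induction b with
  | var n => simp [bx] at h
  | bot => simp [bx] at h
  | imp c d ihc ihd =>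
    simp only [bx, Finset.mem_union] at h ⊢
    rcases h with h | h
    · exact (ihc h).trans Finset.subset_union_left
    · exact (ihd h).trans Finset.subset_union_right
  | box c ih =>
    simp only [bx, Finset.mem_insert] at h ⊢
    rcases h with rfl | h
    · exact Finset.subset_insert _ _
    · exact (ih h).trans (Finset.subset_insert _ _)

theorem valid_congr (ls ls' : List ℕ) (a : Fm) (N : ℕ) (hN : a.code.length < N)
    (h : ∀ j, min (lnth ls j) N = min (lnth ls' j) N) (hv : ValidL ls a) : ValidL ls' a := by
  intro V V0
  have hcard : (bx a).card < N := lt_of_le_of_lt (bx_card a) hN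
  have hex : ∀ j, ∃ V', Same (bx a) (V j) (lnth ls' j) V' (lnth ls j) := fun j =>
    same_of_min (bx a) (fun b hb => bx_trans hb) N hcard _ _ (h j).symm (V j)
  choose V' hV' using hex
  have key : ∀ b, bx b ⊆ bx a → (satr (lnth ls') V V0 b ↔ satr (lnth ls) V' V0 b) := by
    intro b
    induction b with
    | var n => intro _; simp [satr]
    | bot => intro _; simp [satr]
    | imp b c ihb ihc =>
      intro hb
      simp only [bx, Finset.union_subset_iff] at hb
      simp only [satr, ihb hb.1, ihc hb.2]
    | box b _ =>
      intro hb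
      simp only [bx, Finset.insert_subset_iff] at hb
      simp only [satr]
      exact forall_congr' fun j => hV' j b hb.1
  exact (key a subset_rfl).2 (hv V' V0)

end Pool.Agent.Helper367ML
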