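import Pool.Agent.Helper367_ML.Cls

set_option autoImplicit false

/-!
The interpolant existence problem of the logic is undecidable.
-/

namespace Pool.Agent.Helper367ML

open Fm

/-- Iterated boxes in front of falsum. -/
def bb : ℕ → Fm
  | 0 => bot
  | h + 1 => box (bb h)

/-- The rank is exactly `r`. -/
def rk (r : ℕ) : Fm := Fm.and (bb (r + 1)) (neg (bb r))

/-- The variable `x` is constant on every chain. -/
def cl (x : ℕ) : Fm :=
  Fm.and (box (imp (var x) (box (var x)))) (box (imp (neg (var x)) (box (neg (var x)))))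

/-- The longest chain on which `x` holds has length `r + 1`. -/
def al (x r : ℕ) : Fm :=
  Fm.and (cl x) (Fm.and (dia (Fm.and (var x) (rk r))) (box (imp (var x) (bb (r + 1)))))

/-- Two different chains have length `r + 1`. -/
def dd (x y r : ℕ) : Fm :=
  Fm.and (Fm.and (al x r) (al y r)) (box (neg (Fm.and (var x) (var y))))

/-- The left formulas. -/
def phi (n : ℕ) : Fm := Fm.and (al 0 (2 * n + 3)) (dd 1 2 0)

/-- The right formulas. -/
def psi (n : ℕ) : Fm := neg (Fm.and (al 3 (2 * n + 3)) (dd 4 5 2))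

section sem

variable (V : ℕ → ℕ → Prop) (len : ℕ → ℕ) (W : ℕ → ℕ → ℕ → Prop) (V0 : ℕ → Prop)

theorem satc_neg (a : Fm) (r : ℕ) : satc V (neg a) r ↔ ¬ satc V a r := by
  simp [neg, satc]

theorem satc_and (a b : Fm) (r : ℕ) : satc V (Fm.and a b) r ↔ satc V a r ∧ satc V b r := by
  simp only [Fm.and, neg, satc]
  tauto

theorem satr_neg (a : Fm) : satr len W V0 (neg a) ↔ ¬ satr len W V0 a := by
  simp [neg, satr]

theorem satr_and (a b : Fm) :
    satr len W V0 (Fm.and a b) ↔ satr len W V0 a ∧ satr len W V0 b := by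
  simp only [Fm.and, neg, satr]
  tauto

theorem satr_or (a b : Fm) :
    satr len W V0 (Fm.or a b) ↔ satr len W V0 a ∨ satr len W V0 b := by
  simp only [Fm.or, neg, satr]
  tauto

theorem satr_dia (a : Fm) :
    satr len W V0 (dia a) ↔ ∃ j r, r < len j ∧ satc (W j) a r := by
  simp only [dia, satr_neg]
  simp only [satr, satc_neg]
  push Not
  rfl

theorem satc_bb (h r : ℕ) : satc V (bb h) r ↔ r < h := by
  induction h generalizing r with
  | zero => simp [bb, satc]
  | succ h ih =>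
    simp only [bb, satc, ih]
    constructor
    · intro H
      by_contra hr
      have := H h (by omega)
      omega
    · intro H s hs
      omega

theorem satc_rk (h r : ℕ) : satc V (rk h) r ↔ r = h := by
  simp only [rk, satc_and, satc_neg, satc_bb]
  omega

theorem satr_bb (h : ℕ) : satr len W V0 (bb (h + 1)) ↔ ∀ j, len j ≤ h := by
  simp only [bb, satr, satc_bb]
  constructor
  · intro H j
    by_contra hj
    have := H j h (by omega)
    omega
  · intro H j r hr
    have := H j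
    omega

theorem satr_rk (h : ℕ) : satr len W V0 (rk (h + 1)) ↔ (∀ j, len j ≤ h + 1) ∧ ∃ j, h < len j := by
  simp only [rk, satr_and, satr_neg, satr_bb]
  push Not
  rfl

theorem satr_al (x r : ℕ) (h : satr len W V0 (al x r)) :
    ∃ j, len j = r + 1 ∧ W j r x := by
  simp only [al, cl, satr_and, satr_dia, satc_and, satc_rk] at h
  simp only [satr, satc, satc_neg, satc_bb] at h
  obtain ⟨⟨h1, h2⟩, ⟨j, s, hs, hx, rfl⟩, h4⟩ := h
  refine ⟨j, ?_, hx⟩
  by_contra hne
  have hlt : s + 1 < len j := by omega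
  by_cases hy : W j (s + 1) x
  · have := h4 j (s + 1) hlt hy
    omega
  · exact h2 j (s + 1) hlt hy s (by omega) hx

theorem satr_dd (x y r : ℕ) (h : satr len W V0 (dd x y r)) :
    ∃ i j, i ≠ j ∧ len i = r + 1 ∧ len j = r + 1 := by
  simp only [dd, satr_and] at h
  obtain ⟨⟨h1, h2⟩, h3⟩ := h
  obtain ⟨i, hi, hx⟩ := satr_al len W V0 x r h1
  obtain ⟨j, hj, hy⟩ := satr_al len W V0 y r h2
  simp only [satr, satc_neg, satc_and, satc] at h3
  refine ⟨i, j, ?_, hi, hj⟩
  rintro rfl
  exact h3 i r (by omega) ⟨hx, hy⟩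

theorem satr_al' (x r j0 : ℕ) (hj : len j0 = r + 1) (hW : ∀ j s, W j s x ↔ j = j0) :
    satr len W V0 (al x r) := by
  simp only [al, cl, satr_and, satr_dia, satc_and, satc_rk]
  simp only [satr, satc, satc_neg, satc_bb, hW]
  refine ⟨⟨?_, ?_⟩, ⟨j0, r, by omega, rfl, rfl⟩, ?_⟩
  · intro j s _ h t _
    exact h
  · intro j s _ h t _
    exact h
  · rintro j s hs rfl
    omega

theorem satr_dd' (x y r j0 j1 : ℕ) (h0 : len j0 = r + 1) (h1 : len j1 = r + 1) (hne : j0 ≠ j1)
    (hx : ∀ j s, W j s x ↔ j = j0) (hy : ∀ j s, W j s y ↔ j = j1) :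
    satr len W V0 (dd x y r) := by
  simp only [dd, satr_and]
  refine ⟨⟨satr_al' len W V0 x r j0 h0 hx, satr_al' len W V0 y r j1 h1 hy⟩, ?_⟩
  simp only [satr, satc_neg, satc_and, satc, hx, hy]
  rintro j s _ ⟨rfl, h⟩
  exact hne h

end sem

theorem lnth_one (n l j : ℕ) : lnth (fr 1 n l) j =
    if j = 0 then 1 else if j = 1 then 1 else if j = 2 then 3 else if j = 3 then 2 * n + 4 else
      if j = 4 then l else 0 := by
  rcases j with _ | _ | _ | _ | _ | j <;> simp [fr, lnth]

theorem lnth_two (n l j : ℕ) : lnth (fr 2 n l) j =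
    if j = 0 then 1 else if j = 1 then 3 else if j = 2 then 3 else if j = 3 then 2 * n + 4 else
      if j = 4 then l else 0 := by
  rcases j with _ | _ | _ | _ | _ | j <;> simp [fr, lnth]

theorem lnth_zero (n l j : ℕ) : lnth (fr 0 n l) j = if j = 0 then l else 0 := by
  rcases j with _ | j <;> simp [fr, lnth]

theorem phi_frame {k m l n : ℕ} (hok : Ok k m l) {W : ℕ → ℕ → ℕ → Prop} {V0 : ℕ → Prop}
    (h : satr (lnth (fr k m l)) W V0 (phi n)) : k = 1 ∧ m = n ∧ l % 2 = 1 := by
  simp only [phi, satr_and] at h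
  obtain ⟨j0, h0, _⟩ := satr_al _ _ _ _ _ h.1
  obtain ⟨i, j, hij, hi, hj⟩ := satr_dd _ _ _ _ _ _ h.2
  rcases hok with rfl | ⟨h1, ⟨rfl, h2, h3⟩ | ⟨rfl, h2⟩⟩
  · rw [lnth_zero] at hi hj
    split_ifs at hi hj <;> omega
  · refine ⟨rfl, ?_, h2⟩
    rw [lnth_one] at h0
    split_ifs at h0 <;> omega
  · rw [lnth_two] at hi hj
    split_ifs at hi hj <;> omega

theorem psi_frame {k m l n : ℕ} (hok : Ok k m l) {W : ℕ → ℕ → ℕ → Prop} {V0 : ℕ → Prop}
    (h : ¬ satr (lnth (fr k m l)) W V0 (psi n)) : k = 2 ∧ l % 2 = 0 := by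
  simp only [psi, satr_neg, satr_and, not_not] at h
  obtain ⟨i, j, hij, hi, hj⟩ := satr_dd _ _ _ _ _ _ h.2
  rcases hok with rfl | ⟨h1, ⟨rfl, h2, h3⟩ | ⟨rfl, h2⟩⟩
  · rw [lnth_zero] at hi hj
    split_ifs at hi hj <;> omega
  · rw [lnth_one] at hi hj
    split_ifs at hi hj <;> omega
  · exact ⟨rfl, h2⟩

theorem phi_sat (n l : ℕ) : ∃ W V0, satr (lnth (fr 1 n l)) W V0 (phi n) := by
  refine ⟨fun j _ x => (x = 0 ∧ j = 3) ∨ (x = 1 ∧ j = 0) ∨ (x = 2 ∧ j = 1), fun _ => True, ?_⟩
  simp only [phi, satr_and]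
  refine ⟨satr_al' _ _ _ _ _ 3 (by rw [lnth_one]; simp) (by intro j s; simp),
    satr_dd' _ _ _ _ _ _ 0 1 (by rw [lnth_one]; simp) (by rw [lnth_one]; simp) (by omega)
      (by intro j s; simp) (by intro j s; simp)⟩

theorem psi_sat (n l : ℕ) : ∃ W V0, ¬ satr (lnth (fr 2 n l)) W V0 (psi n) := by
  refine ⟨fun j _ x => (x = 3 ∧ j = 3) ∨ (x = 4 ∧ j = 1) ∨ (x = 5 ∧ j = 2), fun _ => True, ?_⟩
  simp only [psi, satr_neg, satr_and, not_not]
  refine ⟨satr_al' _ _ _ _ _ 3 (by rw [lnth_two]; simp) (by intro j s; simp),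
    satr_dd' _ _ _ _ _ _ 1 2 (by rw [lnth_two]; simp) (by rw [lnth_two]; simp) (by omega)
      (by intro j s; simp) (by intro j s; simp)⟩

/-- The interpolants: the rank is odd and less than `M`. -/
def chi : ℕ → Fm
  | 0 => bot
  | M + 1 => if M % 2 = 1 then Fm.or (rk M) (chi M) else chi M

theorem bb_vars (h : ℕ) : (bb h).vars = ∅ := by
  induction h with
  | zero => rfl
  | succ h ih => simpa [bb, vars] using ih

theorem chi_vars (M : ℕ) : (chi M).vars = ∅ := by
  induction M with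
  | zero => rfl
  | succ M ih =>
    unfold chi
    split_ifs
    · simp [Fm.or, rk, Fm.and, neg, vars, bb_vars, ih]
    · exact ih

theorem satr_chi (len : ℕ → ℕ) (W : ℕ → ℕ → ℕ → Prop) (V0 : ℕ → Prop) (M : ℕ) :
    satr len W V0 (chi M) ↔ ∃ l, l < M ∧ l % 2 = 1 ∧ satr len W V0 (rk l) := by
  induction M with
  | zero => simp [chi, satr]
  | succ M ih =>
    unfold chi
    split_ifs with hM
    · rw [satr_or, ih]
      constructor
      · rintro (h | ⟨l, h1, h2, h3⟩)
        · exact ⟨M, by omega, hM, h⟩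
        · exact ⟨l, by omega, h2, h3⟩
      · rintro ⟨l, h1, h2, h3⟩
        by_cases hl : l = M
        · subst hl
          exact Or.inl h3
        · exact Or.inr ⟨l, by omega, h2, h3⟩
    · rw [ih]
      constructor
      · rintro ⟨l, h1, h2, h3⟩
        exact ⟨l, by omega, h2, h3⟩
      · rintro ⟨l, h1, h2, h3⟩
        refine ⟨l, ?_, h2, h3⟩
        by_contra hl
        have : l = M := by omega
        subst this
        exact hM h2

/-- The frame `fr 1 n l` or `fr 2 n l` has rank `l`. -/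
theorem rank_frame {k n l : ℕ} (hok : Ok k n l) :
    (∀ j, lnth (fr k n l) j ≤ l) ∧ ∃ j, lnth (fr k n l) j = l := by
  rcases hok with rfl | ⟨h1, ⟨rfl, h2, h3⟩ | ⟨rfl, h2⟩⟩
  · refine ⟨fun j => ?_, 0, by rw [lnth_zero]; simp⟩
    rw [lnth_zero]
    split_ifs <;> omega
  · refine ⟨fun j => ?_, 4, by rw [lnth_one]; simp⟩
    rw [lnth_one]
    split_ifs <;> omega
  · refine ⟨fun j => ?_, 4, by rw [lnth_two]; simp⟩
    rw [lnth_two]
    split_ifs <;> omega

theorem satr_rk_frame {k n l m : ℕ} (hok : Ok k n l) (W : ℕ → ℕ → ℕ → Prop) (V0 : ℕ → Prop) :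
    satr (lnth (fr k n l)) W V0 (rk (m + 1)) ↔ l = m + 1 := by
  obtain ⟨h1, j, h2⟩ := rank_frame hok
  rw [satr_rk]
  constructor
  · rintro ⟨h3, i, h4⟩
    have := h3 j
    have := h1 i
    omega
  · rintro rfl
    exact ⟨h1, j, by omega⟩

theorem exists_interpolant {n s : ℕ} (hn : Halt n s) : ∃ c, IsInterpolant Lg (phi n) (psi n) c := by
  refine ⟨chi (2 * n + 6 + s), ?_, ?_, ?_⟩
  · rw [chi_vars]
    exact Set.empty_subset _
  · rintro ls ⟨k, m, l, hok, rfl⟩ W V0
    simp only [satr]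
    intro h
    obtain ⟨rfl, rfl, hodd⟩ := phi_frame hok h
    rw [satr_chi]
    refine ⟨l, ?_, hodd, ?_⟩
    · rcases hok with h' | ⟨h1, ⟨_, _, h3 | h3⟩ | ⟨h', _⟩⟩
      · omega
      · omega
      · by_contra hl
        exact h3 (hn.mono (by omega))
      · omega
    · obtain ⟨l', rfl⟩ : ∃ l', l = l' + 1 := ⟨l - 1, by omega⟩
      exact (satr_rk_frame hok W V0).2 rfl
  · rintro ls ⟨k, m, l, hok, rfl⟩ W V0
    simp only [satr]
    intro h
    by_contra hpsi
    obtain ⟨rfl, heven⟩ := psi_frame hok hpsi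
    rw [satr_chi] at h
    obtain ⟨l', _, hodd, h3⟩ := h
    obtain ⟨m', rfl⟩ : ∃ m', l' = m' + 1 := ⟨l' - 1, by omega⟩
    have := (satr_rk_frame hok W V0).1 h3
    omega

theorem satr_closed {len : ℕ → ℕ} {l : ℕ} (h1 : ∀ j, len j ≤ l) (h2 : ∃ j, len j = l)
    (W : ℕ → ℕ → ℕ → Prop) (V0 : ℕ → Prop) (a : Fm) (ha : a.vars = ∅) :
    satr len W V0 a ↔ satc (fun _ _ => False) a l := by
  have key : ∀ (V : ℕ → ℕ → Prop) (b : Fm), b.vars = ∅ → ∀ r,
      (satc V b r ↔ satc (fun _ _ => False) b r) := fun V b hb r =>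
    satc_congr _ _ b r (by simp [hb])
  induction a with
  | var n => simp [vars] at ha
  | bot => simp [satr, satc]
  | imp a b iha ihb =>
    simp only [vars, Set.union_empty_iff] at ha
    simp only [satr, satc, iha ha.1, ihb ha.2]
  | box a _ =>
    simp only [vars] at ha
    simp only [satr, satc, fun j => key (W j) a ha]
    constructor
    · intro H s hs
      obtain ⟨j, hj⟩ := h2
      exact H j s (by omega)
    · intro H j r hr
      have := h1 j
      exact H r (by omega)

theorem eventually_const (a : Fm) :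
    (∃ R, ∀ r, R ≤ r → satc (fun _ _ => False) a r) ∨
      (∃ R, ∀ r, R ≤ r → ¬ satc (fun _ _ => False) a r) := by
  induction a with
  | var n => exact Or.inr ⟨0, fun r _ => by simp [satc]⟩
  | bot => exact Or.inr ⟨0, fun r _ => by simp [satc]⟩
  | imp a b iha ihb =>
    simp only [satc]
    rcases ihb with ⟨R, h⟩ | ⟨R, h⟩
    · exact Or.inl ⟨R, fun r hr _ => h r hr⟩
    · rcases iha with ⟨R', h'⟩ | ⟨R', h'⟩
      · exact Or.inr ⟨max R R', fun r hr H =>
          h r (le_trans (le_max_left _ _) hr) (H (h' r (le_trans (le_max_right _ _) hr)))⟩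
      · exact Or.inl ⟨R', fun r hr H => absurd H (h' r hr)⟩
  | box a _ =>
    simp only [satc]
    by_cases hall : ∀ s, satc (fun _ _ => False) a s
    · exact Or.inl ⟨0, fun r _ s _ => hall s⟩
    · push Not at hall
      obtain ⟨s, hs⟩ := hall
      exact Or.inr ⟨s + 1, fun r hr H => hs (H s (by omega))⟩

theorem no_interpolant {n : ℕ} (hn : ∀ s, ¬ Halt n s) :
    ¬ ∃ c, IsInterpolant Lg (phi n) (psi n) c := by
  rintro ⟨c, hc, h1, h2⟩
  have hvars : c.vars = ∅ := by
    rw [Set.eq_empty_iff_forall_notMem]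
    intro x hx
    have := hc hx
    simp [phi, psi, al, dd, cl, rk, Fm.and, dia, neg, vars, bb_vars] at this
    omega
  rcases eventually_const c with ⟨R, hR⟩ | ⟨R, hR⟩
  · -- eventually true: contradiction at the second family
    set l := 2 * n + 6 + 2 * R with hl
    have hok : Ok 2 n l := Or.inr ⟨by omega, Or.inr ⟨rfl, by omega⟩⟩
    obtain ⟨W, V0, hpsi⟩ := psi_sat n l
    have h := h2 _ ⟨2, n, l, hok, rfl⟩ W V0
    simp only [satr] at h
    obtain ⟨r1, r2⟩ := rank_frame hok
    exact hpsi (h ((satr_closed r1 r2 W V0 c hvars).2 (hR l (by omega))))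
  · set l := 2 * n + 5 + 2 * R with hl
    have hok : Ok 1 n l := Or.inr ⟨by omega, Or.inl ⟨rfl, by omega, Or.inr (hn l)⟩⟩
    obtain ⟨W, V0, hphi⟩ := phi_sat n l
    have h := h1 _ ⟨1, n, l, hok, rfl⟩ W V0
    simp only [satr] at h
    obtain ⟨r1, r2⟩ := rank_frame hok
    exact hR l (by omega) ((satr_closed r1 r2 W V0 c hvars).1 (h hphi))

/-! ### The reduction is computable -/

/-- A family of formulas with primitive recursive codes. -/
def CP (f : ℕ → Fm) : Prop := Primrec fun n => (f n).code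

theorem CP.const (a : Fm) : CP fun _ => a := Primrec.const _

theorem CP.imp {f g : ℕ → Fm} (hf : CP f) (hg : CP g) : CP fun n => Fm.imp (f n) (g n) :=
  Primrec.list_append.comp (Primrec.list_append.comp hf hg) (Primrec.const [1])

theorem CP.box {f : ℕ → Fm} (hf : CP f) : CP fun n => Fm.box (f n) :=
  Primrec.list_append.comp hf (Primrec.const [2])

theorem CP.neg {f : ℕ → Fm} (hf : CP f) : CP fun n => Fm.neg (f n) := hf.imp (CP.const bot)

theorem CP.and {f g : ℕ → Fm} (hf : CP f) (hg : CP g) : CP fun n => Fm.and (f n) (g n) :=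
  (hf.imp hg.neg).neg

theorem CP.dia {f : ℕ → Fm} (hf : CP f) : CP fun n => Fm.dia (f n) := hf.neg.box.neg

theorem bb_cp : CP bb := by
  have h : Primrec fun n : ℕ => Nat.rec (motive := fun _ => List ℕ) [0] (fun _ w => w ++ [2]) n :=
    Primrec.nat_rec₁ [0] (Primrec.list_append.comp Primrec.snd (Primrec.const [2]))
  refine h.of_eq fun n => ?_
  induction n with
  | zero => rfl
  | succ n ih => simp only [bb, code, ← ih]

theorem bb_cp' (k : ℕ) : CP fun n => bb (2 * n + k) :=
  bb_cp.comp (Primrec.nat_add.comp (Primrec.nat_mul.comp (Primrec.const 2) Primrec.id)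
    (Primrec.const k))

theorem al_cp (x k : ℕ) : CP fun n => al x (2 * n + k) :=
  (CP.const (cl x)).and
    ((((CP.const (var x)).and ((bb_cp' (k + 1)).and (bb_cp' k).neg)).dia).and
      ((CP.const (var x)).imp (bb_cp' (k + 1))).box)

theorem phi_cp : CP phi := (al_cp 0 3).and (CP.const (dd 1 2 0))

theorem psi_cp : CP psi := ((al_cp 3 3).and (CP.const (dd 4 5 2))).neg

theorem undecidable_Lg : ¬ DecidableIEP Lg := by
  rintro ⟨f, hf, hiff⟩
  have hcomp : Computable fun c : Nat.Partrec.Code =>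
      f ((phi (Encodable.encode c)).code, (psi (Encodable.encode c)).code) :=
    hf.comp (Computable.pair (phi_cp.to_comp.comp Computable.encode)
      (psi_cp.to_comp.comp Computable.encode))
  apply ComputablePred.halting_problem 0
  have key : ∀ c : Nat.Partrec.Code,
      f ((phi (Encodable.encode c)).code, (psi (Encodable.encode c)).code) = true ↔
        (Nat.Partrec.Code.eval c 0).Dom := by
    intro c
    rw [hiff]
    have hhalt : ∀ s, Halt (Encodable.encode c) s ↔ ∃ x, x ∈ Nat.Partrec.Code.evaln s c 0 := by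
      intro s
      unfold Halt
      rw [Denumerable.ofNat_encode, Option.ne_none_iff_exists']
      rfl
    constructor
    · intro h
      by_contra hdom
      refine no_interpolant (n := Encodable.encode c) ?_ h
      intro s hs
      obtain ⟨x, hx⟩ := (hhalt s).1 hs
      have := Nat.Partrec.Code.evaln_complete.2 ⟨s, hx⟩
      exact hdom (Part.dom_iff_mem.2 ⟨x, this⟩)
    · intro hdom
      obtain ⟨x, hx⟩ := Part.dom_iff_mem.1 hdom
      obtain ⟨s, hs⟩ := Nat.Partrec.Code.evaln_complete.1 hx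
      exact exists_interpolant ((hhalt s).2 ⟨x, hs⟩)
  refine ComputablePred.computable_iff.2 ⟨_, hcomp, ?_⟩
  funext c
  exact propext (key c).symm

theorem main : ∃ L : Set Fm, NormalLogic L ∧ LogicGL ⊆ L ∧ DecidableLogic L ∧ ¬ DecidableIEP L :=
  ⟨Lg, normal_logOf Cl cl_single,
    fun _ ha => ha Lg (normal_logOf Cl cl_single) (lob_logOf Cl), decidable_Lg, undecidable_Lg⟩

end Pool.Agent.Helper367ML
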